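import Pool.Agent.W525.CB.Stm

set_option autoImplicit false

open Polynomial Cardinal

namespace Pool.Agent.W959.CB.TR
open Pool.Agent.W525.CB

section gen
variable (k : Type) {E : Type} [Field k] [Field E] [Algebra k E] {ι : Type} (c : ι → E)

/-- the elements algebraic over the field generated by `c` -/
noncomputable def KK : IntermediateField k E :=
  (algebraicClosure (IntermediateField.adjoin k (Set.range c)) E).restrictScalars k

theorem mem_KK {e : E} :
    e ∈ KK k c ↔ e ∈ algebraicClosure (IntermediateField.adjoin k (Set.range c)) E := by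
  unfold KK
  rw [IntermediateField.mem_restrictScalars]

theorem c_mem (i : ι) : c i ∈ KK k c := by
  rw [mem_KK, mem_algebraicClosure_iff]
  exact isAlgebraic_algebraMap
    (⟨c i, IntermediateField.subset_adjoin _ _ ⟨i, rfl⟩⟩ :
      IntermediateField.adjoin k (Set.range c))

theorem root_mem {e : E} (q : E[X]) (hq : ∀ n, q.coeff n ∈ KK k c) (h0 : q ≠ 0)
    (he : q.eval e = 0) : e ∈ KK k c := by
  have hl : q ∈ Polynomial.lifts
      (algebraMap (algebraicClosure (IntermediateField.adjoin k (Set.range c)) E) E) := by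
    rw [Polynomial.lifts_iff_coeff_lifts]
    intro n
    exact ⟨⟨q.coeff n, (mem_KK k c).1 (hq n)⟩, rfl⟩
  obtain ⟨p, hp⟩ := (Polynomial.mem_lifts _).1 hl
  have halg : IsAlgebraic (algebraicClosure (IntermediateField.adjoin k (Set.range c)) E) e := by
    refine ⟨p, ?_, ?_⟩
    · rintro rfl
      rw [Polynomial.map_zero] at hp
      exact h0 hp.symm
    · rw [aeval_def, eval₂_eq_eval_map, hp, he]
  have h2 := (mem_algebraicClosure_iff (F := algebraicClosure
    (IntermediateField.adjoin k (Set.range c)) E) (E := E)).2 halg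
  rw [algebraicClosure.algebraicClosure_eq_bot] at h2
  obtain ⟨z, hz⟩ := IntermediateField.mem_bot.1 h2
  rw [mem_KK, ← hz]
  exact z.2

/-- algebraically closed in `E` -/
def AC (K : IntermediateField k E) : Prop :=
  ∀ (e : E) (p : K[X]), p ≠ 0 → aeval e p = 0 → e ∈ K

theorem ac : AC k (KK k c) := by
  intro e p hp he
  refine root_mem k c (p.map (algebraMap (KK k c) E)) ?_ ?_ ?_
  · intro n
    rw [coeff_map]
    exact (p.coeff n).2
  · exact (Polynomial.map_ne_zero_iff (algebraMap (KK k c) E).injective).2 hp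
  · rw [eval_map_algebraMap, he]

theorem pow_mem' {K : IntermediateField k E} (hK : AC k K) {e : E} {m : ℕ} (hm : 0 < m)
    (h : e ^ m ∈ K) : e ∈ K := by
  refine hK e (X ^ m - C ⟨e ^ m, h⟩) (X_pow_sub_C_ne_zero hm _) ?_
  simp

open IntermediateField.algebraAdjoinAdjoin in
theorem alg (h : ∀ e, e ∈ KK k c) :
    Algebra.IsAlgebraic (Algebra.adjoin k (Set.range c)) E := by
  have h1 : Algebra.IsAlgebraic (IntermediateField.adjoin k (Set.range c)) E :=
    ⟨fun e => mem_algebraicClosure_iff.1 ((mem_KK k c).1 (h e))⟩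
  exact (IsFractionRing.comap_isAlgebraic_iff
    (A := Algebra.adjoin k (Set.range c)) (K := IntermediateField.adjoin k (Set.range c))
    (C := E)).2 h1

theorem indep [Finite ι] (h : ∀ e, e ∈ KK k c) (hc : #ι ≤ Algebra.trdeg k E) :
    AlgebraicIndependent k c := by
  have := alg k c h
  exact (Algebra.IsAlgebraic.isTranscendenceBasis_of_le_trdeg_of_finite k c hc).1

theorem trdeg_le (h : ∀ e, e ∈ KK k c) : Algebra.trdeg k E ≤ #ι := by
  have := alg k c h
  exact (Algebra.IsAlgebraic.trdeg_le_cardinalMk k (Set.range c)).trans Cardinal.mk_range_le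

theorem le_trdeg {F : IntermediateField k E} (h : AlgebraicIndependent k c)
    (hF : ∀ i, c i ∈ F) : #ι ≤ Algebra.trdeg k F := by
  have h2 : AlgebraicIndependent k (fun i => (⟨c i, hF i⟩ : F)) := by
    rw [← AlgHom.algebraicIndependent_iff F.val F.val.injective]
    exact h
  exact h2.cardinalMk_le_trdeg

end gen

section conc
variable {n : ℕ} {k E : Type} [Field k] [Field E] [Algebra k E] {x y : Fin (n + 3) → E}

theorem x_div_pow (hE : EDat n k E x y) :
    1 + (x 1 / x 0) ^ (2 * n + 5) +
      ∑ i : Fin (n + 1), (x i.succ.succ / x 0) ^ (2 * n + 5) = 0 := by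
  have h0 := hE.dat.nx 0
  have h := hE.dat.fermat
  rw [Fin.sum_univ_succ, Fin.sum_univ_succ] at h
  have h1 : (x 0 ^ (2 * n + 5) + (x (Fin.succ 0) ^ (2 * n + 5) +
      ∑ i : Fin (n + 1), x i.succ.succ ^ (2 * n + 5))) / x 0 ^ (2 * n + 5) = 0 := by
    rw [h, zero_div]
  rw [add_div, div_self (pow_ne_zero _ h0), add_div, Finset.sum_div] at h1
  simp only [← div_pow] at h1
  rw [← add_assoc] at h1
  exact h1

theorem x_div_tang (hE : EDat n k E x y) :
    x 1 / x 0 + ∑ i : Fin (n + 1), x i.succ.succ / x 0 * y i.succ.succ ^ (n + 2) = 0 := by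
  have h0 := hE.dat.nx 0
  have h := hE.dat.tang
  rw [Fin.sum_univ_succ, Fin.sum_univ_succ] at h
  have h01 : (Fin.succ 0 : Fin (n + 3)) = 1 := rfl
  rw [h01, hE.y0, hE.y1, one_pow, mul_one, zero_pow (by omega), mul_zero, zero_add] at h
  have h1 : (x 1 + ∑ i : Fin (n + 1), x i.succ.succ * y i.succ.succ ^ (n + 2)) / x 0 = 0 := by
    rw [h, zero_div]
  rw [add_div, Finset.sum_div] at h1
  rw [← h1]
  congr 1
  refine Finset.sum_congr rfl (fun i _ => ?_)
  ring

theorem closA (hE : EDat n k E x y) {K : IntermediateField k E} (hK : AC k K)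
    (hs : ∀ i : Fin n, x i.succ.succ.succ / x 0 ∈ K)
    (hy : ∀ i : Fin (n + 1), y i.succ.succ ∈ K) (i : Fin (n + 1)) :
    x i.succ.succ / x 0 ∈ K := by
  induction i using Fin.cases with
  | succ i => exact hs i
  | zero =>
    have h1 := x_div_pow hE
    have h2 := x_div_tang hE
    rw [Fin.sum_univ_succ] at h1 h2
    obtain ⟨r, hr⟩ : ∃ r : K, (r : E) = ∑ i : Fin n,
        x i.succ.succ.succ / x 0 * y i.succ.succ.succ ^ (n + 2) := by
      have hm : ∑ i : Fin n, x i.succ.succ.succ / x 0 * y i.succ.succ.succ ^ (n + 2) ∈ K :=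
        sum_mem fun i _ => mul_mem (hs i) (pow_mem (hy i.succ) _)
      exact ⟨⟨_, hm⟩, rfl⟩
    obtain ⟨t, ht⟩ : ∃ t : K, (t : E) = 1 + ∑ i : Fin n,
        (x i.succ.succ.succ / x 0) ^ (2 * n + 5) := by
      have hm : 1 + ∑ i : Fin n, (x i.succ.succ.succ / x 0) ^ (2 * n + 5) ∈ K :=
        add_mem (one_mem _) (sum_mem fun i _ => pow_mem (hs i) _)
      exact ⟨⟨_, hm⟩, rfl⟩
    obtain ⟨a, ha⟩ : ∃ a : K, (a : E) = y (Fin.succ (Fin.succ 0)) ^ (n + 2) :=
      ⟨⟨_, pow_mem (hy 0) _⟩, rfl⟩
    refine hK _ (X ^ (2 * n + 5) + (-(C a * X + C r)) ^ (2 * n + 5) + C t) ?_ ?_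
    · intro h0
      have h3 := congrArg (fun p : K[X] => p.coeff (2 * n + 5)) h0
      simp only [coeff_add, coeff_X_pow, if_true, coeff_zero] at h3
      have h4 : ((-(C a * X + C r)) ^ (2 * n + 5) : K[X]).coeff (2 * n + 5) =
          (-a) ^ (2 * n + 5) := by
        have h5 := Polynomial.coeff_pow_of_natDegree_le (p := -(C a * X + C r)) (n := 1)
          (m := 2 * n + 5) (by rw [natDegree_neg]; exact natDegree_linear_le)
        rw [mul_one] at h5
        rw [h5]
        simp
      have h6 : (C t : K[X]).coeff (2 * n + 5) = 0 := by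
        rw [coeff_C, if_neg (by omega)]
      rw [h4, h6, add_zero, Odd.neg_pow ⟨n + 2, by ring⟩] at h3
      have h7 : a ^ (2 * n + 5) = 1 := by linear_combination -h3
      have h8 : y (Fin.succ (Fin.succ 0)) ^ ((n + 2) * (2 * n + 5)) = 1 := by
        rw [pow_mul, ← ha]
        exact_mod_cast congrArg (fun z : K => (z : E)) h7
      have h9 := (hE.ind.transcendental (Sum.inr 0))
      apply h9
      refine ⟨X ^ ((n + 2) * (2 * n + 5)) - C 1, X_pow_sub_C_ne_zero (by positivity) _, ?_⟩
      simp only [Sum.elim_inr, map_sub, map_pow, aeval_X, aeval_C, map_one]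
      rw [h8, sub_self]
    · simp only [map_add, map_pow, aeval_X, map_neg, map_mul, aeval_C]
      have e1 : ∀ z : K, algebraMap K E z = (z : E) := fun _ => rfl
      rw [e1, e1, e1, hr, ht, ha]
      have h10 : -(y (Fin.succ (Fin.succ 0)) ^ (n + 2) * (x (Fin.succ (Fin.succ 0)) / x 0) +
          ∑ i : Fin n, x i.succ.succ.succ / x 0 * y i.succ.succ.succ ^ (n + 2)) = x 1 / x 0 := by
        linear_combination -h2
      rw [h10]
      linear_combination h1

theorem closB (hE : EDat n k E x y) {K : IntermediateField k E} (hK : AC k K)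
    (hs : ∀ i : Fin (n + 1), x i.succ.succ / x 0 ∈ K)
    (hy : ∀ i : Fin n, y i.castSucc.succ.succ ∈ K) (i : Fin (n + 1)) :
    y i.succ.succ ∈ K := by
  have h1 := x_div_pow hE
  have h2 := x_div_tang hE
  have h3 : x 1 / x 0 ∈ K := by
    refine pow_mem' k hK (m := 2 * n + 5) (by omega) ?_
    have h4 : (x 1 / x 0) ^ (2 * n + 5) =
        -(1 + ∑ i : Fin (n + 1), (x i.succ.succ / x 0) ^ (2 * n + 5)) := by
      linear_combination h1
    rw [h4]
    exact neg_mem (add_mem (one_mem _) (sum_mem fun i _ => pow_mem (hs i) _))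
  induction i using Fin.lastCases with
  | cast i => exact hy i
  | last =>
    refine pow_mem' k hK (m := n + 2) (by omega) ?_
    rw [Fin.sum_univ_castSucc] at h2
    have h0 : x (Fin.last n).succ.succ / x 0 ≠ 0 :=
      div_ne_zero (hE.dat.nx _) (hE.dat.nx _)
    have h5 : y (Fin.last n).succ.succ ^ (n + 2) = -(x 1 / x 0 + ∑ i : Fin n,
        x i.castSucc.succ.succ / x 0 * y i.castSucc.succ.succ ^ (n + 2)) /
        (x (Fin.last n).succ.succ / x 0) := by
      rw [eq_div_iff h0]
      linear_combination h2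
    rw [h5]
    exact div_mem (neg_mem (add_mem h3 (sum_mem fun i _ => mul_mem (hs _) (pow_mem (hy i) _))))
      (hs _)

theorem all_mem (hE : EDat n k E x y) {K : IntermediateField k E} (h0 : x 0 ∈ K) (hK : AC k K)
    (hs : ∀ i : Fin (n + 1), x i.succ.succ / x 0 ∈ K)
    (hy : ∀ i : Fin (n + 1), y i.succ.succ ∈ K) (e : E) : e ∈ K := by
  have hx0 := hE.dat.nx 0
  have h1 : x 1 / x 0 ∈ K := by
    have h2 := x_div_tang hE
    have h3 : x 1 / x 0 = -∑ i : Fin (n + 1), x i.succ.succ / x 0 * y i.succ.succ ^ (n + 2) := by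
      linear_combination h2
    rw [h3]
    exact neg_mem (sum_mem fun i _ => mul_mem (hs _) (pow_mem (hy i) _))
  have hx : ∀ i, x i ∈ K := by
    intro i
    induction i using Fin.cases with
    | zero => exact h0
    | succ i =>
      have : x i.succ / x 0 ∈ K := by
        induction i using Fin.cases with
        | zero => exact h1
        | succ i => exact hs i
      have h4 := mul_mem this h0
      rwa [div_mul_cancel₀ _ hx0] at h4
  have hy' : ∀ i, y i ∈ K := by
    intro i
    induction i using Fin.cases with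
    | zero => rw [hE.y0]; exact zero_mem _
    | succ i =>
      induction i using Fin.cases with
      | zero =>
        have : y (Fin.succ 0) = 1 := hE.y1
        rw [this]
        exact one_mem _
      | succ i => exact hy i
  have h5 : (⊤ : IntermediateField k E) ≤ K := by
    rw [← hE.gen, IntermediateField.adjoin_le_iff]
    rintro e (⟨i, rfl⟩ | ⟨i, rfl⟩)
    · exact hx i
    · exact hy' i
  exact h5 IntermediateField.mem_top

end conc

theorem main (_ : S_FF) : S_TR := by
  intro n k E _ _ _ _ _ _ x y hn hE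
  have hx0 := hE.dat.nx 0
  have htr : ((2 * n + 2 : ℕ) : Cardinal) ≤ Algebra.trdeg k E := by
    have h := hE.ind.cardinalMk_le_trdeg
    refine le_trans (le_of_eq ?_) h
    rw [Cardinal.mk_fintype, Fintype.card_sum, Fintype.card_fin]
    congr 1
    ring
  have hsx : ∀ i, x i / x 0 ∈ FX k x y := fun i =>
    IntermediateField.subset_adjoin _ _ (Or.inl ⟨i, rfl⟩)
  have hyx : ∀ i, y i ∈ FX k x y := fun i =>
    IntermediateField.subset_adjoin _ _ (Or.inr ⟨i, rfl⟩)
  have hsz : ∀ i, x i / x 0 ∈ FZ k x := fun i =>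
    IntermediateField.subset_adjoin _ _ ⟨i, rfl⟩
  refine ⟨?_, ?_, ?_⟩
  · -- the first family
    have h1 := indep k (Sum.elim (fun _ : Unit => x 0) (Sum.elim
      (fun i : Fin n => x i.succ.succ.succ / x 0) (fun i : Fin (n + 1) => y i.succ.succ))) (by
        have hc := c_mem k (Sum.elim (fun _ : Unit => x 0) (Sum.elim
          (fun i : Fin n => x i.succ.succ.succ / x 0) (fun i : Fin (n + 1) => y i.succ.succ)))
        exact all_mem hE (hc (Sum.inl ())) (ac k _)
          (closA hE (ac k _) (fun i => hc (Sum.inr (Sum.inl i)))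
            (fun i => hc (Sum.inr (Sum.inr i)))) (fun i => hc (Sum.inr (Sum.inr i)))) (by
        refine le_trans (le_of_eq ?_) htr
        rw [Cardinal.mk_fintype]
        simp only [Fintype.card_sum, Fintype.card_unit, Fintype.card_fin]
        congr 1
        ring)
    have h2 := h1.comp (Sum.inr : Fin n ⊕ Fin (n + 1) → Unit ⊕ (Fin n ⊕ Fin (n + 1)))
      Sum.inr_injective
    have h3 := le_trdeg k _ (F := FX k x y) h2 (by
      rintro (i | i)
      · exact hsx _
      · exact hyx _)
    refine le_trans (le_of_eq ?_) h3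
    rw [Cardinal.mk_fintype]
    simp only [Fintype.card_sum, Fintype.card_fin]
    congr 1
    ring
  · have h1 := indep k (Sum.elim (fun _ : Unit => x 0) (Sum.elim
      (fun i : Fin (n + 1) => x i.succ.succ / x 0)
      (fun i : Fin n => y i.castSucc.succ.succ))) (by
        have hc := c_mem k (Sum.elim (fun _ : Unit => x 0) (Sum.elim
          (fun i : Fin (n + 1) => x i.succ.succ / x 0)
          (fun i : Fin n => y i.castSucc.succ.succ)))
        exact all_mem hE (hc (Sum.inl ())) (ac k _) (fun i => hc (Sum.inr (Sum.inl i)))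
          (closB hE (ac k _) (fun i => hc (Sum.inr (Sum.inl i)))
            (fun i => hc (Sum.inr (Sum.inr i))))) (by
        refine le_trans (le_of_eq ?_) htr
        rw [Cardinal.mk_fintype]
        simp only [Fintype.card_sum, Fintype.card_unit, Fintype.card_fin]
        congr 1
        ring)
    have h2 := h1.comp (Sum.inr ∘ Sum.inl : Fin (n + 1) → Unit ⊕ (Fin (n + 1) ⊕ Fin n))
      (Sum.inr_injective.comp Sum.inl_injective)
    have h3 := le_trdeg k _ (F := FZ k x) h2 (fun i => hsz _)
    refine le_trans (le_of_eq ?_) h3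
    rw [Cardinal.mk_fintype, Fintype.card_fin]
  · intro i hi
    have hc := c_mem k (Sum.elim
      (fun i : Fin n => x i.succ.succ.succ / x 0) (fun i : Fin (n + 1) => y i.succ.succ))
    have hac := ac k (Sum.elim
      (fun i : Fin n => x i.succ.succ.succ / x 0) (fun i : Fin (n + 1) => y i.succ.succ))
    have hA := closA hE hac (fun i => hc (Sum.inl i)) (fun i => hc (Sum.inr i))
    set K := KK k (Sum.elim
      (fun i : Fin n => x i.succ.succ.succ / x 0) (fun i : Fin (n + 1) => y i.succ.succ)) with hKdef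
    have hy : ∀ i : Fin (n + 1), y i.succ.succ ∈ K := fun i => hc (Sum.inr i)
    have hs1 : x 1 / x 0 ∈ K := by
      have h2 := x_div_tang hE
      have h3 : x 1 / x 0 =
          -∑ i : Fin (n + 1), x i.succ.succ / x 0 * y i.succ.succ ^ (n + 2) := by
        linear_combination h2
      rw [h3]
      exact neg_mem (sum_mem fun i _ => mul_mem (hA _) (pow_mem (hy i) _))
    have hs : ∀ i, x i / x 0 ∈ K := by
      intro i
      induction i using Fin.cases with
      | zero => rw [div_self hx0]; exact one_mem _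
      | succ i =>
        induction i using Fin.cases with
        | zero => exact hs1
        | succ i => exact hA i
    have hyy : ∀ i, y i ∈ K := by
      intro i
      induction i using Fin.cases with
      | zero => rw [hE.y0]; exact zero_mem _
      | succ i =>
        induction i using Fin.cases with
        | zero =>
          have : y (Fin.succ 0) = 1 := hE.y1
          rw [this]
          exact one_mem _
        | succ i => exact hy i
    have hFX : FX k x y ≤ K := by
      unfold FX
      rw [IntermediateField.adjoin_le_iff]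
      rintro e (⟨i, rfl⟩ | ⟨i, rfl⟩)
      · exact hs i
      · exact hyy i
    obtain ⟨p, hp, hpi⟩ := hi
    have hxi : x i ∈ K := by
      refine hac (x i) (p.map (IntermediateField.inclusion hFX).toRingHom) ?_ ?_
      · exact (Polynomial.map_ne_zero_iff
          (IntermediateField.inclusion hFX).toRingHom.injective).2 hp
      · rw [aeval_def, eval₂_map]
        exact hpi
    have hx0K : x 0 ∈ K := by
      have h1 : x 0 = x i / (x i / x 0) := by
        rw [div_div_cancel₀ (hE.dat.nx i)]
      rw [h1]
      exact div_mem hxi (hs i)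
    have h5 := trdeg_le k _ (all_mem hE hx0K hac hA hy)
    have h6 := htr.trans h5
    rw [Cardinal.mk_fintype] at h6
    simp only [Fintype.card_sum, Fintype.card_fin] at h6
    have h7 : 2 * n + 2 ≤ n + (n + 1) := by exact_mod_cast h6
    omega

end Pool.Agent.W959.CB.TR
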